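import Pool.Agent.L0h26.CK.Stm

/-!
# Module EV of project JB: even `k`
-/

set_option autoImplicit false

namespace Pool.Agent.L0h83.JB

open Finset Pool.Agent.Helper91.CK Pool.Agent.L0h26.CK

lemma quad (K R X z s : ℝ) (hs : s = R + X) (hR : 3 ≤ R) (hX : X = 0 ∨ 2 ≤ X) :
    0 ≤ s * (s - 2) * z ^ 2 - K * X * (2 * R + X - 2) * z + K ^ 2 * (X * (X + 2)) := by
  rcases hX with hX | hX
  · subst hX
    rw [hs]
    have h1 : 0 ≤ (R + 0) * (R + 0 - 2) := mul_nonneg (by linarith) (by linarith)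
    have h2 := mul_nonneg h1 (sq_nonneg z)
    linarith
  · have hs0 : 0 < s * (s - 2) := mul_pos (by linarith) (by linarith)
    have h1 : 0 ≤ 8 * R ^ 2 + R * (4 * X ^ 2 + 16 * X - 16) + X * (X - 2) * (3 * X + 10) := by
      have e1 : 0 ≤ R * (4 * X ^ 2 + 16 * X - 16) := mul_nonneg (by linarith) (by nlinarith)
      have e2 : 0 ≤ X * (X - 2) * (3 * X + 10) :=
        mul_nonneg (mul_nonneg (by linarith) (by linarith)) (by linarith)
      have e3 : 0 ≤ 8 * R ^ 2 := by positivity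
      linarith
    have h2 : 0 ≤ K ^ 2 * X * (8 * R ^ 2 + R * (4 * X ^ 2 + 16 * X - 16) +
        X * (X - 2) * (3 * X + 10)) := mul_nonneg (mul_nonneg (sq_nonneg K) (by linarith)) h1
    have h3 : 4 * (s * (s - 2)) * (s * (s - 2) * z ^ 2 - K * X * (2 * R + X - 2) * z +
        K ^ 2 * (X * (X + 2))) =
        (2 * (s * (s - 2)) * z - K * X * (2 * R + X - 2)) ^ 2 +
        K ^ 2 * X * (8 * R ^ 2 + R * (4 * X ^ 2 + 16 * X - 16) + X * (X - 2) * (3 * X + 10)) := by
      rw [hs]; ring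
    have h4 : 0 ≤ 4 * (s * (s - 2)) * (s * (s - 2) * z ^ 2 - K * X * (2 * R + X - 2) * z +
        K ^ 2 * (X * (X + 2))) := by
      rw [h3]
      have := sq_nonneg (2 * (s * (s - 2)) * z - K * X * (2 * R + X - 2))
      linarith
    exact nonneg_of_mul_nonneg_right h4 (by linarith)

lemma quad2 (K R X z s f f' : ℝ) (hs : s = R + X) (hR : 3 ≤ R) (hX : X = 0 ∨ 2 ≤ X)
    (hK : 0 < K) (hz : z ≤ f) (h : R * (R - 2) * f + K * (X * (X + 2)) ≤ s * (s - 2) * f') :
    K * z - z ^ 2 ≤ K * f' := by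
  have hX0 : 0 ≤ X := by rcases hX with h | h <;> linarith
  have hs0 : 0 < s * (s - 2) := mul_pos (by linarith) (by linarith)
  have h1 := quad K R X z s hs hR hX
  have h2 : 0 ≤ K * (R * (R - 2)) * (f - z) :=
    mul_nonneg (mul_nonneg hK.le (mul_nonneg (by linarith) (by linarith))) (by linarith)
  have h3 := mul_le_mul_of_nonneg_left h hK.le
  have h4 : 0 ≤ s * (s - 2) * (K * f' - (K * z - z ^ 2)) := by
    rw [hs] at *
    nlinarith
  have := nonneg_of_mul_nonneg_right h4 hs0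
  linarith

lemma F_neg {V : Type} [DecidableEq V] (W : V → V → ℤ) (A : Finset V) (σ : V → ℤ) :
    F W A (fun x => - σ x) = F W A σ := by
  unfold F
  congr 1
  apply Finset.sum_congr rfl
  intro x _
  apply Finset.sum_congr rfl
  intro y _
  ring

/-- the core: the sum of the signs is reduced to `d ≤ 1` -/
lemma core (hBAL : S_BAL) (V : Type) [Fintype V] [DecidableEq V] (G : SimpleGraph V)
    [DecidableRel G.Adj] (k : ℕ) (hk : 1000 ≤ k) (hreg : ∀ v, ∑ y, ad G v y = k)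
    (hn : 3 ≤ Fintype.card V) (d : ℕ) (j : ℕ) (σ : V → ℤ) (hσ : Sg σ)
    (hs : ∑ v, σ v = (d : ℤ) + 2 * j)
    (hF : (3 * (k : ℤ) + 8) * (Fintype.card V : ℤ) ≤
      3 * ((k : ℤ) + 1) * F (fun x y => (ad G x y : ℤ)) univ σ) :
    ∃ σ' : V → ℤ, Sg σ' ∧ ∑ v, σ' v = d ∧
      ((Fintype.card V : ℝ)) * ((3 * k + 8) - (3 * (k : ℝ) + 8) ^ 2 / (3 * k * (k + 1))) ≤
      3 * ((k : ℝ) + 1) * (F (fun x y => (ad G x y : ℤ)) univ σ' : ℤ) := by
  obtain ⟨σ', h1, h2, h3⟩ := hBAL V (fun x y => (ad G x y : ℤ))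
    (fun x y => by rw [ad_symm]) (fun x => by simp [ad_self]) hn d j σ hσ hs
  refine ⟨σ', h1, h2, ?_⟩
  have hrow : ∀ y, ∑ x, (ad G y x : ℤ) = k := by
    intro y
    exact_mod_cast hreg y
  simp only [hrow] at h3
  rw [← Finset.sum_mul, hs, Finset.sum_const, Finset.card_univ, nsmul_eq_mul] at h3
  set f : ℤ := F (fun x y => (ad G x y : ℤ)) univ σ with hf
  set f' : ℤ := F (fun x y => (ad G x y : ℤ)) univ σ' with hf'
  set n : ℕ := Fintype.card V with hnn
  have hk' : (1000 : ℝ) ≤ k := by exact_mod_cast hk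
  have hn' : (3 : ℝ) ≤ n := by exact_mod_cast hn
  have hd' : (0 : ℝ) ≤ d := Nat.cast_nonneg _
  have hj' : (0 : ℝ) ≤ j := Nat.cast_nonneg _
  have h3' : ((n : ℝ) + d) * (n + d - 2) * f + 2 * j * (2 * (n + d) * ((d + 2 * j) * k) -
      (2 * j - 2) * (n * k)) ≤ (n + d + 2 * j) * (n + d + 2 * j - 2) * f' := by
    exact_mod_cast h3
  have hF' : (3 * (k : ℝ) + 8) * n ≤ 3 * (k + 1) * f := by exact_mod_cast hF
  set z : ℝ := (3 * (k : ℝ) + 8) * n / (3 * (k + 1)) with hz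
  have hzf : z ≤ f := by
    rw [hz, div_le_iff₀ (by positivity)]
    linarith
  have hz0 : 0 ≤ z := by positivity
  have hX : (2 * (j : ℝ)) = 0 ∨ 2 ≤ 2 * (j : ℝ) := by
    rcases Nat.eq_zero_or_pos j with h | h
    · left; rw [h]; simp
    · right
      have : (1 : ℝ) ≤ j := by exact_mod_cast h
      linarith
  have hR : (3 : ℝ) ≤ n + d := by linarith
  have hK : 0 < (k : ℝ) * (n + d) := by positivity
  have hkey : ((n : ℝ) + d) * ((n + d) - 2) * f + (k * (n + d)) * ((2 * j) * (2 * j + 2)) ≤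
      (n + d + 2 * j) * (n + d + 2 * j - 2) * f' := by
    refine le_trans ?_ h3'
    have e : 2 * (j : ℝ) * (2 * (n + d) * ((d + 2 * j) * k) - (2 * j - 2) * (n * k)) -
        (k * (n + d)) * ((2 * j) * (2 * j + 2)) =
        2 * j * k * (d * (2 * (n + d) + 2 * j - 2)) := by ring
    have e2 : 0 ≤ 2 * (j : ℝ) * k * (d * (2 * (n + d) + 2 * j - 2)) := by
      apply mul_nonneg (by positivity)
      exact mul_nonneg hd' (by linarith)
    linarith
  have hq := quad2 ((k : ℝ) * (n + d)) (n + d) (2 * j) z (n + d + 2 * j) f f' rfl hR hX hK hzf hkey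
  -- divide by `k (n + d)`
  have h5 : z - z ^ 2 / (k * (n + d)) ≤ f' := by
    have e : z - z ^ 2 / (k * (n + d)) = (k * (n + d) * z - z ^ 2) / (k * (n + d)) := by
      field_simp
    rw [e, div_le_iff₀ hK]
    linarith
  have h6 : z ^ 2 / (k * (n + d)) ≤ z ^ 2 / (k * n) := by
    apply div_le_div_of_nonneg_left (sq_nonneg z) (by positivity)
    exact mul_le_mul_of_nonneg_left (by linarith) (by positivity)
  have h7 : 3 * ((k : ℝ) + 1) * (z - z ^ 2 / (k * n)) =
      n * ((3 * k + 8) - (3 * (k : ℝ) + 8) ^ 2 / (3 * k * (k + 1))) := by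
    rw [hz]
    have : (n : ℝ) ≠ 0 := by linarith
    field_simp
  rw [← h7]
  exact mul_le_mul_of_nonneg_left (by linarith) (by positivity)

theorem ev : S_EV := by
  intro hBAL V _ _ G _ k hk hke hreg hcf
  have hk' : (1000 : ℝ) ≤ k := by exact_mod_cast hk
  -- the constant
  have hc : (3 * (k : ℝ) + 8) ^ 2 / (3 * k * (k + 1)) ≤ 302 / 100 := by
    rw [div_le_iff₀ (by positivity)]
    nlinarith
  rcases isEmpty_or_nonempty V with hV | hV
  · refine ⟨fun _ => ⟨fun _ => 1, fun v => Or.inl rfl, by simp, ?_⟩, fun h => ?_⟩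
    · simp [F]
    · rw [Fintype.card_eq_zero] at h
      exact absurd h (by decide)
  obtain ⟨v0⟩ := hV
  have hncard : k ≤ Fintype.card V := by
    have h1 := hreg v0
    have h2 : ∑ y, ad G v0 y ≤ ∑ y : V, 1 := by
      apply Finset.sum_le_sum
      intro y _
      unfold ad
      split <;> omega
    rw [Finset.sum_const, Finset.card_univ, smul_eq_mul, mul_one] at h2
    omega
  have hn3 : 3 ≤ Fintype.card V := by omega
  have hn' : (1000 : ℝ) ≤ Fintype.card V := by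
    have : 1000 ≤ Fintype.card V := by omega
    exact_mod_cast this
  obtain ⟨σ0, hσ0, hF0⟩ := lower hk hreg hcf
  have hk2 : 6 * (((k + 1) / 2 : ℕ) : ℤ) + 8 = 3 * (k : ℤ) + 8 := by
    obtain ⟨m, hm⟩ := hke
    have : (k + 1) / 2 = m := by omega
    rw [this, hm]
    push_cast
    ring
  rw [hk2] at hF0
  obtain ⟨σ, hσ, hs0, hF⟩ : ∃ σ : V → ℤ, Sg σ ∧ 0 ≤ ∑ v, σ v ∧
      (3 * (k : ℤ) + 8) * (Fintype.card V : ℤ) ≤
      3 * ((k : ℤ) + 1) * F (fun x y => (ad G x y : ℤ)) univ σ := by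
    rcases le_total 0 (∑ v, σ0 v) with h | h
    · exact ⟨σ0, hσ0, h, hF0⟩
    · refine ⟨fun v => - σ0 v, fun v => ?_, ?_, ?_⟩
      · rcases hσ0 v with h1 | h1
        · right; show - σ0 v = -1; rw [h1]
        · left; show - σ0 v = 1; rw [h1]; rfl
      · rw [Finset.sum_neg_distrib]; linarith
      · rw [F_neg]; exact hF0
  have hpar : (2 : ℤ) ∣ ∑ v, σ v - Fintype.card V := by
    have e : ∑ v, σ v - (Fintype.card V : ℤ) = ∑ v, (σ v - 1) := by
      rw [Finset.sum_sub_distrib]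
      simp
    rw [e]
    apply Finset.dvd_sum
    intro v _
    rcases hσ v with h | h
    · rw [h]; simp
    · rw [h]; norm_num
  constructor
  · intro hev
    obtain ⟨m, hm⟩ := hev
    obtain ⟨j, hj⟩ : ∃ j : ℕ, ∑ v, σ v = ((0 : ℕ) : ℤ) + 2 * j := by
      obtain ⟨c, hc⟩ := hpar
      refine ⟨(c + m).toNat, ?_⟩
      have h1 : ∑ v, σ v = 2 * (c + m) := by rw [hm] at hc; push_cast at hc; linarith
      rw [Int.toNat_of_nonneg (by linarith)]
      push_cast
      linarith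
    obtain ⟨σ', h1, h2, h3⟩ := core hBAL V G k hk hreg hn3 0 j σ hσ hj hF
    refine ⟨σ', h1, by simpa using h2, ?_⟩
    have h4 : ((k : ℝ) + 8) * Fintype.card V ≤
        3 * ((k : ℝ) + 1) * (F (fun x y => (ad G x y : ℤ)) univ σ' : ℤ) := by
      refine le_trans ?_ h3
      rw [mul_comm]
      exact mul_le_mul_of_nonneg_left (by linarith) (by positivity)
    exact_mod_cast h4
  · intro hod hbig
    obtain ⟨m, hm⟩ := hod
    obtain ⟨j, hj⟩ : ∃ j : ℕ, ∑ v, σ v = ((1 : ℕ) : ℤ) + 2 * j := by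
      obtain ⟨c, hc⟩ := hpar
      refine ⟨(c + m).toNat, ?_⟩
      have h1 : ∑ v, σ v = 2 * (c + m) + 1 := by rw [hm] at hc; push_cast at hc; linarith
      rw [Int.toNat_of_nonneg (by omega)]
      push_cast
      linarith
    obtain ⟨σ', h1, h2, h3⟩ := core hBAL V G k hk hreg hn3 1 j σ hσ hj hF
    refine ⟨σ', h1, by simpa using h2, ?_⟩
    have hbig' : 3 * (k : ℝ) + 9 ≤ Fintype.card V := by exact_mod_cast hbig
    have h4 : 6 * (k : ℝ) * (k + 1) + ((k : ℝ) + 8) * Fintype.card V ≤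
        3 * ((k : ℝ) + 1) * (F (fun x y => (ad G x y : ℤ)) univ σ' : ℤ) := by
      refine le_trans ?_ h3
      have e1 : (Fintype.card V : ℝ) * (3 * k + 8 - 302 / 100) ≤
          (Fintype.card V : ℝ) * ((3 * k + 8) - (3 * (k : ℝ) + 8) ^ 2 / (3 * k * (k + 1))) :=
        mul_le_mul_of_nonneg_left (by linarith) (by positivity)
      refine le_trans ?_ e1
      have e2 : (3 * (k : ℝ) + 9) * (2 * k - 302 / 100) ≤
          (Fintype.card V : ℝ) * (2 * k - 302 / 100) :=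
        mul_le_mul_of_nonneg_right hbig' (by linarith)
      nlinarith
    exact_mod_cast h4

end Pool.Agent.L0h83.JB
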